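import Pool.Agent.Run7.h47.Eig5

set_option autoImplicit false

/-!
# Gaussian Anderson model, `d ≥ 3`: bulk eigenvectors are spread beyond the mean free path

`H_σ = Δ + σ ξ` on the discrete torus `(ℤ/L)^d`, `d ≥ 3`, `ξ` i.i.d. standard Gaussian, `σ` small, of
any side `L ≥ |σ|⁻¹²`. For `b < 72/35` and every `ε > 0`, with probability at least `1 - ε` all but
`ε L^d` of the eigenvectors with energies in `[-a, a]`, `a < 2 d`, have in every slab of width
`2 |σ|^(-b)`, hence in every cube of this side, less than the fraction `ε` of their mass. The mean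
free path is of order `|σ|⁻²`.
-/

namespace Pool.Agent.Results.MP_1906c1_mp.EigenvectorSpread

open MeasureTheory ProbabilityTheory

noncomputable section

/-- the discrete torus `(ℤ/L)^d` -/
abbrev Torus (d L : ℕ) : Type := Fin d → ZMod L

/-- `u` solves `(Δ + σ ξ) u = E u` on the torus, `(Δ u)(x) = ∑_{|y - x| = 1} u(y)`. -/
def IsEigenvector {d L : ℕ} (σ : ℝ) (ξ : Torus d L → ℝ) (E : ℝ) (u : Torus d L → ℂ) : Prop :=
  ∀ x, ∑ i : Fin d, (u (x + Pi.single i 1) + u (x - Pi.single i 1)) + σ * ξ x * u x = E * u x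

/-- the slab `{x : |x_i - c| ≤ r}` of the torus -/
def slab {d L : ℕ} (r : ℝ) (i : Fin d) (c : ZMod L) : Set (Torus d L) :=
  {x | ∃ m : ℤ, |(m : ℝ)| ≤ r ∧ x i = c + (m : ZMod L)}

open Classical in
/-- the mass `∑_{x ∈ A} |u x|²` of `u` in the set `A` -/
def mass {d L : ℕ} [NeZero L] (u : Torus d L → ℂ) (A : Set (Torus d L)) : ℝ :=
  ∑ x, if x ∈ A then ‖u x‖ ^ 2 else 0

/-- Let `d ≥ 3`, `a < 2 d` and `b < 72 / 35`. For every `ε > 0` there is `s > 0` such that for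
`0 < |σ| ≤ s` and all `L ≥ |σ|⁻¹²` there is a set `S` of potentials on the torus of side `L` with
probability at least `1 - ε` such that for `ξ ∈ S` the following holds: a family of orthonormal
eigenvectors of `Δ + σ ξ` with eigenvalues in `[-a, a]`, each of which has at least the fraction `ε`
of its mass in some slab of width `2 |σ|^(-b)`, has at most `ε L^d` members. -/
theorem result (d : ℕ) (hd : 3 ≤ d) (a : ℝ) (ha0 : 0 ≤ a) (ha : a < 2 * d) (b : ℝ)
    (hb : b < 72 / 35) (ε : ℝ) (hε : 0 < ε) :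
    ∃ s : ℝ, 0 < s ∧ ∀ σ : ℝ, 0 < |σ| → |σ| ≤ s → ∀ (L : ℕ) [NeZero L], (|σ| ^ 12)⁻¹ ≤ (L : ℝ) →
      ∃ S : Set (Torus d L → ℝ), MeasurableSet S ∧
        1 - ε ≤ (Measure.pi fun _ : Torus d L => gaussianReal 0 1).real S ∧
        ∀ ξ ∈ S, ∀ (ι : Type) [Fintype ι] (u : ι → EuclideanSpace ℂ (Torus d L)) (E : ι → ℝ),
          Orthonormal ℂ u → (∀ j, IsEigenvector σ ξ (E j) (u j)) → (∀ j, |E j| ≤ a) →
          (∀ j, ∃ (i : Fin d) (c : ZMod L), ε ≤ mass (u j) (slab (|σ| ^ (-b)) i c)) →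
          (Fintype.card ι : ℝ) ≤ ε * (L : ℝ) ^ d := by
  classical
  obtain ⟨s, hs, H⟩ := Run7.h47.spread d hd a ha0 ha b hb ε hε
  refine ⟨s, hs, fun σ h1 h2 L _ h3 => ?_⟩
  obtain ⟨S, k1, k2, k3⟩ := H σ h1 h2 L h3
  refine ⟨S, k1, k2, fun ξ hξ ι _ u E hu hE hEa hm => ?_⟩
  refine k3 ξ hξ ι u E hu hE hEa fun j => ?_
  obtain ⟨i, c, hic⟩ := hm j
  refine ⟨i, c, hic.trans (le_of_eq ?_)⟩
  unfold mass
  rw [Finset.sum_filter]
  refine Finset.sum_congr rfl fun x _ => ?_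
  congr 1

end

end Pool.Agent.Results.MP_1906c1_mp.EigenvectorSpread
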